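import Pool.Agent.AVH.EProof

/-!
# Equivariant polynomial maps from pairs of traceless matrices to `Hom(V ⊗ Λ^q V, V^{⊗ (q + 1)})`
-/

set_option autoImplicit false

namespace Pool.Agent.Results.MP_c67a3f_ag.ExteriorPower

open Pool.Agent.AVH.E

/-- Let `V = ℂ^n` and let `F` be a polynomial map from pairs of traceless complex matrices of size `n` to
`Hom(V ⊗ Λ^q V, V^{⊗ (q + 1)})` or to `Hom(V^{⊗ (q + 1)}, V ⊗ Λ^q V)`, equivariant under `GL_n`, which vanishes on all
commuting pairs. Then the matrix coefficients of `F` are in the ideal of the commuting scheme of `sl_n`, which is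
generated by the entries of `x y - y x` (and the traces of `x`, `y`). -/
theorem result (n q : ℕ) (F : PolyMap n (q + 1)) (hF : Equivariant F)
    (ha : AltInputs F ∨ AltOutputs F)
    (hv : ∀ A B : Matrix (Fin n) (Fin n) ℂ, A * B = B * A → A.trace = 0 → B.trace = 0 →
      ∀ i j, value (F i j) A B = 0) (i j : Fin (q + 1) → Fin n) : F i j ∈ idealSl n :=
  main n q F hF ha hv i j

end Pool.Agent.Results.MP_c67a3f_ag.ExteriorPower
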