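import Pool.Agent.ALV.All
import Pool.Agent.CTR.Loc

/-!
# The class of pairs at which the commuting scheme of a Lie algebra is reduced
-/

set_option autoImplicit false

noncomputable section

namespace Pool.Agent.Results.MP_c67a3f_ag.LeviClosure

/-! ### the commuting scheme -/

/-- The ideal generated by the coordinates of `[x, y]`, in the polynomial ring in the coordinates `inl i` of `x` and `inr i`
of `y` for a basis of the Lie algebra: the commuting scheme is the spectrum of the quotient. -/
def ideal {g : Type} [LieRing g] [LieAlgebra ℂ g] {ι : Type} [Fintype ι]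
    (b : Module.Basis ι ℂ g) : Ideal (MvPolynomial (ι ⊕ ι) ℂ) :=
  Ideal.span (Set.range (fun k : ι => ∑ i : ι, ∑ j : ι, MvPolynomial.C (b.repr ⁅b i, b j⁆ k) *
    MvPolynomial.X (Sum.inl i) * MvPolynomial.X (Sum.inr j)))

/-- The value of a polynomial at the pair `(x, y)`. -/
def value {g : Type} [LieRing g] [LieAlgebra ℂ g] {ι : Type} (b : Module.Basis ι ℂ g) (x y : g) :
    MvPolynomial (ι ⊕ ι) ℂ →+* ℂ :=
  MvPolynomial.eval (Sum.elim (b.repr x) (b.repr y))

/-- The polynomials which do not vanish at `(x, y)`. -/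
def nonvanishing {g : Type} [LieRing g] [LieAlgebra ℂ g] {ι : Type} (b : Module.Basis ι ℂ g)
    (x y : g) : Submonoid (MvPolynomial (ι ⊕ ι) ℂ) where
  carrier := {f | value b x y f ≠ 0}
  one_mem' := by
    change value b x y 1 ≠ 0
    rw [map_one]
    exact one_ne_zero
  mul_mem' := fun {f g} hf hg => by
    change value b x y (f * g) ≠ 0
    rw [map_mul]
    exact mul_ne_zero hf hg

/-- The commuting scheme is reduced at the pair `(x, y)`: the localization of the quotient by the ideal at the classes of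
the polynomials which do not vanish at `(x, y)` is reduced. -/
def ReducedAt {g : Type} [LieRing g] [LieAlgebra ℂ g] {ι : Type} [Fintype ι]
    (b : Module.Basis ι ℂ g) (x y : g) : Prop :=
  IsReduced (Localization (Submonoid.map (Ideal.Quotient.mk (ideal b)) (nonvanishing b x y)))

/-- The Lie algebra `g` is finite dimensional, and its commuting scheme (for each basis) is reduced at `(x, y)`. -/
def Reduced (g : Type) [LieRing g] [LieAlgebra ℂ g] (x y : g) : Prop :=
  FiniteDimensional ℂ g ∧
    ∀ (ι : Type) [Fintype ι] (b : Module.Basis ι ℂ g), ReducedAt b x y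

/-! ### elements with a small centralizer -/

/-- The centralizer of `x`. -/
def centralizer {g : Type} [LieRing g] [LieAlgebra ℂ g] (x : g) : Submodule ℂ g :=
  LinearMap.ker (LieAlgebra.ad ℂ g x)

/-- No element has a centralizer of smaller dimension. -/
def Regular {g : Type} [LieRing g] [LieAlgebra ℂ g] (x : g) : Prop :=
  ∀ s : g, Module.finrank ℂ (centralizer x) ≤ Module.finrank ℂ (centralizer s)

/-- The dimension of the centralizer of `x` is the minimal one plus two, or less, and three elements of the centralizer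
have linearly independent brackets. -/
def SubregularA {g : Type} [LieRing g] [LieAlgebra ℂ g] (x : g) : Prop :=
  (∀ s : g, Module.finrank ℂ (centralizer x) ≤ Module.finrank ℂ (centralizer s) + 2) ∧
    ∃ u ∈ centralizer x, ∃ v ∈ centralizer x, ∃ w ∈ centralizer x,
      LinearIndependent ℂ ![⁅u, v⁆, ⁅u, w⁆, ⁅v, w⁆]

/-- The value at `s` of the polynomial map from `g` to `g` with the coordinates `P i`. -/
def polyMap {g : Type} [LieRing g] [LieAlgebra ℂ g] {ι : Type} [Fintype ι]
    (b : Module.Basis ι ℂ g) (P : ι → MvPolynomial ι ℂ) (s : g) : g :=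
  ∑ i, MvPolynomial.eval (b.repr s) (P i) • b i

/-- There are `e` polynomial maps `P` with `[s, P s] = 0` for all `s` and with linearly independent values at `x`, where
the centralizer of `x` has the dimension `e + 3`; and there is a subspace `E` of dimension three such that `x` is an
isolated point (for the Zariski topology) of the set of the `s` in `x + E` whose centralizer has at least the dimension
`e + 3`. -/
def SubregularB {g : Type} [LieRing g] [LieAlgebra ℂ g] {ι : Type} [Fintype ι]
    (b : Module.Basis ι ℂ g) (x : g) : Prop :=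
  (∃ (e : ℕ) (P : Fin e → ι → MvPolynomial ι ℂ),
    Module.finrank ℂ (centralizer x) = e + 3 ∧ (∀ i s, ⁅s, polyMap b (P i) s⁆ = 0) ∧
    LinearIndependent ℂ fun i => polyMap b (P i) x) ∧
  ∃ (E : Submodule ℂ g) (h : MvPolynomial ι ℂ), Module.finrank ℂ E = 3 ∧
    MvPolynomial.eval (b.repr x) h ≠ 0 ∧ ∀ s ∈ E, MvPolynomial.eval (b.repr (x + s)) h ≠ 0 →
      Module.finrank ℂ (centralizer x) ≤ Module.finrank ℂ (centralizer (x + s)) → s = 0

/-! ### the closure properties -/

/-- There is a nondegenerate invariant symmetric bilinear form on `g` (for example if `g` is semisimple). -/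
def HasInvariantForm (g : Type) [LieRing g] [LieAlgebra ℂ g] : Prop :=
  ∃ κ : LinearMap.BilinForm ℂ g, (∀ x y, κ x y = κ y x) ∧ (∀ x y z, κ ⁅x, y⁆ z = κ x ⁅y, z⁆) ∧
    κ.Nondegenerate

/-- A class of pairs of elements of complex Lie algebras. -/
abbrev PairClass : Type 1 := ∀ (g : Type) [LieRing g] [LieAlgebra ℂ g], g → g → Prop

/-- `K` contains all commuting pairs `(x, y)` with `x` regular, if `g` has an invariant form. -/
def ContainsRegular (K : PairClass) : Prop :=
  ∀ (g : Type) [LieRing g] [LieAlgebra ℂ g], FiniteDimensional ℂ g → HasInvariantForm g →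
    ∀ x y : g, ⁅x, y⁆ = 0 → Regular x → K g x y

/-- `K` contains all commuting pairs `(x, y)` with `SubregularA x`, if `g` has an invariant form. -/
def ContainsSubregularA (K : PairClass) : Prop :=
  ∀ (g : Type) [LieRing g] [LieAlgebra ℂ g], FiniteDimensional ℂ g → HasInvariantForm g →
    ∀ x y : g, ⁅x, y⁆ = 0 → SubregularA x → K g x y

/-- `K` contains all commuting pairs `(x, y)` with `SubregularB b x`, if `g` has an invariant form. -/
def ContainsSubregularB (K : PairClass) : Prop :=
  ∀ (g : Type) [LieRing g] [LieAlgebra ℂ g], HasInvariantForm g →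
    ∀ (ι : Type) [Fintype ι] (b : Module.Basis ι ℂ g) (x y : g), ⁅x, y⁆ = 0 → SubregularB b x →
      K g x y

/-- `K` is closed under isomorphisms of Lie algebras. -/
def ClosedIsomorphism (K : PairClass) : Prop :=
  ∀ (g g' : Type) [LieRing g] [LieAlgebra ℂ g] [LieRing g'] [LieAlgebra ℂ g'] (e : g ≃ₗ⁅ℂ⁆ g')
    (x y : g), K g' (e x) (e y) → K g x y

/-- `K` is closed under products of Lie algebras. -/
def ClosedProduct (K : PairClass) : Prop :=
  ∀ (g g' : Type) [LieRing g] [LieAlgebra ℂ g] [LieRing g'] [LieAlgebra ℂ g'] (x y : g)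
    (x' y' : g'), K g x y → K g' x' y' → K (g × g') (x, x') (y, y')

/-- `K` is closed under invertible linear substitutions in the pair. -/
def ClosedLinear (K : PairClass) : Prop :=
  ∀ (g : Type) [LieRing g] [LieAlgebra ℂ g] (x y : g) (p q c d : ℂ), p * d - q * c ≠ 0 →
    K g (p • x + q • y) (c • x + d • y) → K g x y

/-- `K` is closed under the substitution of `y + P x` for `y` if `P` is a polynomial map with `[s, P s] = 0` for all
`s`. -/
def ClosedShear (K : PairClass) : Prop :=
  ∀ (g : Type) [LieRing g] [LieAlgebra ℂ g] (ι : Type) [Fintype ι] (b : Module.Basis ι ℂ g)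
    (P : ι → MvPolynomial ι ℂ), (∀ s : g, ⁅s, polyMap b P s⁆ = 0) →
    ∀ x y : g, K g x (y + polyMap b P x) → K g x y

/-- If `g = l ⊕ m`, `l` a subalgebra, `m` a subspace with `[l, m] ⊆ m`, `x, y` in `l` and `ad x` is injective on `m`, then
`(x, y)` is in `K` for `g` if it is for `l`. -/
def ClosedLevi (K : PairClass) : Prop :=
  ∀ (g : Type) [LieRing g] [LieAlgebra ℂ g], FiniteDimensional ℂ g → ∀ (l : LieSubalgebra ℂ g)
    (m : Submodule ℂ g), IsCompl l.toSubmodule m → (∀ u ∈ l, ∀ v ∈ m, ⁅u, v⁆ ∈ m) →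
    ∀ x y : l, (∀ v ∈ m, ⁅(x : g), v⁆ = 0 → v = 0) → K l x y → K g (x : g) (y : g)

/-- The properties of a class `K` of pairs which are proved for the class `Reduced`. -/
structure Closure (K : PairClass) : Prop where
  regular : ContainsRegular K
  subregularA : ContainsSubregularA K
  subregularB : ContainsSubregularB K
  isomorphism : ClosedIsomorphism K
  product : ClosedProduct K
  linear : ClosedLinear K
  shear : ClosedShear K
  levi : ClosedLevi K

/-! ### proofs -/

theorem rdL_of {g : Type} [LieRing g] [LieAlgebra ℂ g] {ι : Type} [Fintype ι]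
    (b : Module.Basis ι ℂ g) (x y : g) (h : ReducedAt b x y) : Pool.Agent.ALV.RdL b x y := by
  rintro f ⟨m, hf⟩
  have h0 : f ^ m ∈ ideal b := hf
  set M := Submonoid.map (Ideal.Quotient.mk (ideal b)) (nonvanishing b x y) with hM
  have h1 : IsReduced (Localization M) := h
  have h2 : (algebraMap (MvPolynomial (ι ⊕ ι) ℂ ⧸ ideal b) (Localization M)
      (Ideal.Quotient.mk (ideal b) f)) ^ m = 0 := by
    rw [← map_pow, ← map_pow, Ideal.Quotient.eq_zero_iff_mem.2 h0, map_zero]
  have h3 := eq_zero_of_pow_eq_zero h2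
  obtain ⟨t, ht⟩ := (IsLocalization.map_eq_zero_iff M (Localization M) _).1 h3
  obtain ⟨s, hs, hst⟩ := t.2
  refine ⟨s, hs, ?_⟩
  have h4 : s * f ∈ ideal b := by
    rw [← Ideal.Quotient.eq_zero_iff_mem, map_mul, hst]
    exact ht
  exact h4

theorem quad (g : Type) [LieRing g] [LieAlgebra ℂ g] (κ : LinearMap.BilinForm ℂ g)
    (h1 : ∀ x y, κ x y = κ y x) (h2 : ∀ x y z, κ ⁅x, y⁆ z = κ x ⁅y, z⁆) (h3 : κ.Nondegenerate)
    (x y : g) (h4 : Regular x ∨ SubregularA x) (ι : Type) [Fintype ι] (b : Module.Basis ι ℂ g) :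
    Pool.Agent.ALV.RdL b x y := by
  classical
  exact Pool.Agent.ALV.all_Cle g ι κ b ⟨h1, h2, h3⟩ x y
    (Pool.Agent.ALV.all_SAm g ι κ b ⟨h1, h2, h3⟩ x h4)

theorem reducedAt_of {g : Type} [LieRing g] [LieAlgebra ℂ g] {ι : Type} [Fintype ι]
    (b : Module.Basis ι ℂ g) (x y : g) (hR : Pool.Agent.ALV.RdL b x y) : ReducedAt b x y := by
  have : (RingHom.ker (value b x y)).IsPrime := RingHom.ker_isPrime _
  have hS : nonvanishing b x y = (RingHom.ker (value b x y)).primeCompl := by
    ext f
    exact Iff.rfl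
  have h1 := Pool.Agent.CTR.loc_reduced (ideal b) (RingHom.ker (value b x y)) fun f hf => by
    obtain ⟨s, hs, hsf⟩ := hR f hf
    exact ⟨s, hs, hsf⟩
  rw [← hS] at h1
  exact h1

theorem red_iff {g : Type} [LieRing g] [LieAlgebra ℂ g] {x y : g} : Reduced g x y ↔
    FiniteDimensional ℂ g ∧
      ∀ (ι : Type) [Fintype ι] (b : Module.Basis ι ℂ g), Pool.Agent.ALV.RdL b x y :=
  ⟨fun h => ⟨h.1, fun ι _ b => rdL_of b x y (h.2 ι b)⟩,
    fun h => ⟨h.1, fun ι _ b => reducedAt_of b x y (h.2 ι b)⟩⟩

/-- The class of the pairs `(x, y)` of elements of finite dimensional complex Lie algebras at which the commuting scheme is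
reduced has the properties in `Closure`: it contains the regular and subregular pairs and is closed under isomorphisms,
products, linear combinations, shears and extensions from a Levi subalgebra. -/
theorem result : Closure Reduced where
  regular := by
    rintro g _ _ hg ⟨κ, h1, h2, h3⟩ x y h4 h5
    exact red_iff.2 ⟨hg, fun ι _ b => quad g κ h1 h2 h3 x y (Or.inl h5) ι b⟩
  subregularA := by
    rintro g _ _ hg ⟨κ, h1, h2, h3⟩ x y h4 h5
    exact red_iff.2 ⟨hg, fun ι _ b => quad g κ h1 h2 h3 x y (Or.inr h5) ι b⟩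
  subregularB := by
    rintro g _ _ ⟨κ, h1, h2, h3⟩ ι' _ b' x y h4 h5
    refine red_iff.2 ⟨Module.Finite.of_basis b', fun ι _ b => ?_⟩
    classical
    exact Pool.Agent.ALV.all_Iso g g LieEquiv.refl ι ι' b b' x y
      (Pool.Agent.ALV.all_Cle g ι' κ b' ⟨h1, h2, h3⟩ x y
        (Pool.Agent.ALV.all_SBm g ι' κ b' ⟨h1, h2, h3⟩ x h5))
  isomorphism := by
    intro g g' _ _ _ _ e x y h
    obtain ⟨hf, h⟩ := red_iff.1 h
    exact red_iff.2 ⟨Module.Finite.equiv e.toLinearEquiv.symm, fun ι _ b =>
      Pool.Agent.ALV.all_Iso g g' e ι ι b (b.map e.toLinearEquiv) x y (h ι _)⟩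
  product := by
    intro g g' _ _ _ _ x y x' y' h h'
    obtain ⟨hf1, h⟩ := red_iff.1 h
    obtain ⟨hf2, h'⟩ := red_iff.1 h'
    refine red_iff.2 ⟨inferInstance, fun ι _ b => ?_⟩
    let b1 := Module.finBasis ℂ g
    let b2 := Module.finBasis ℂ g'
    exact Pool.Agent.ALV.all_Iso (g × g') (g × g') LieEquiv.refl ι _ b (b1.prod b2) _ _
      (Pool.Agent.ALV.all_PrL g g' _ _ b1 b2 x y x' y' (h _ b1) (h' _ b2))
  linear := by
    intro g _ _ x y p q c d h1 h
    obtain ⟨hf, h⟩ := red_iff.1 h
    exact red_iff.2 ⟨hf, fun ι _ b => Pool.Agent.ALV.all_GLc g ι b x y p q c d h1 (h ι b)⟩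
  shear := by
    intro g _ _ ι' _ b' P h1 x y h
    obtain ⟨hf, h⟩ := red_iff.1 h
    refine red_iff.2 ⟨hf, fun ι _ b => ?_⟩
    exact Pool.Agent.ALV.all_Iso g g LieEquiv.refl ι ι' b b' x y
      (Pool.Agent.ALV.all_Shr g ι' b' P h1 x y (h ι' b'))
  levi := by
    intro g _ _ hf l m h1 h2 x y h3 h
    obtain ⟨hf1, h⟩ := red_iff.1 h
    refine red_iff.2 ⟨hf, fun ι _ b => ?_⟩
    let b' := Module.finBasis ℂ l
    exact Pool.Agent.ALV.all_Lev g l m h1 h2 x y h3 ι _ b b' (h _ b')

end Pool.Agent.Results.MP_c67a3f_ag.LeviClosure
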