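import Pool.Agent.ACV.OVProof

/-!
# Invariants of commuting pairs of traceless matrices, one vector and several covectors
-/

set_option autoImplicit false

namespace Pool.Agent.Results.MP_c67a3f_ag.OneVector

open Pool.Agent.ACV.OV

/-- Let `f` be a polynomial in the entries of two traceless complex matrices `x`, `y` of size `n`, the coordinates of
`p` vectors and those of `r` covectors, where `p ≤ 1` or `r ≤ 1`. If `f` is invariant under `GL_n` and vanishes whenever
`x` and `y` commute, then `f` is in the ideal generated by the entries of `x y - y x` (and the traces of `x`, `y`). -/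
theorem result (n p r : ℕ) (h : p ≤ 1 ∨ r ≤ 1) (f : Poly n p r) (hf : Invariant f)
    (hv : ∀ P : Point n p r, P.Comm → value f P = 0) : f ∈ idealSl n p r :=
  main n p r h f hf hv

end Pool.Agent.Results.MP_c67a3f_ag.OneVector
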