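import Pool.Agent.AOC.All
import Pool.Agent.ANC.Sl

/-!
# The commuting scheme is reduced at pairs with `V = ℂ[A, B] v + ℂ[aA + bB] w`
-/

set_option autoImplicit false

noncomputable section

namespace Pool.Agent.Results.MP_c67a3f_ag.TwoOrbits

open Matrix

/-- The polynomial functions on pairs of complex matrices of size `n`: the variable `(0, i, j)` is the entry
`x_ij` of the first matrix, `(1, i, j)` the entry `y_ij` of the second one. -/
abbrev Poly (n : ℕ) : Type := MvPolynomial (Fin 2 × Fin n × Fin n) ℂ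

/-- The first matrix, with indeterminate entries. -/
def x (n : ℕ) : Matrix (Fin n) (Fin n) (Poly n) := fun i j => MvPolynomial.X (0, i, j)

/-- The second matrix, with indeterminate entries. -/
def y (n : ℕ) : Matrix (Fin n) (Fin n) (Poly n) := fun i j => MvPolynomial.X (1, i, j)

/-- The ideal generated by the entries of `x y - y x`; the commuting scheme of `gl_n` is the spectrum of
`Poly n ⧸ idealGl n`. -/
def idealGl (n : ℕ) : Ideal (Poly n) :=
  Ideal.span {f | ∃ i j, f = (x n * y n - y n * x n) i j}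

/-- The ideal generated by the entries of `x y - y x` and the traces of `x` and `y`; the commuting scheme of the
Lie algebra `sl_n` of the traceless matrices is the spectrum of `Poly n ⧸ idealSl n`. -/
def idealSl (n : ℕ) : Ideal (Poly n) :=
  idealGl n ⊔ Ideal.span {(x n).trace, (y n).trace}

/-- The value of a polynomial at the pair `(A, B)`. -/
def value {n : ℕ} (A B : Matrix (Fin n) (Fin n) ℂ) : Poly n →ₐ[ℂ] ℂ :=
  MvPolynomial.aeval fun v => if v.1 = 0 then A v.2.1 v.2.2 else B v.2.1 v.2.2

/-- The polynomials which do not vanish at `(A, B)`. -/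
def nonvanishing {n : ℕ} (A B : Matrix (Fin n) (Fin n) ℂ) : Submonoid (Poly n) where
  carrier := {f | value A B f ≠ 0}
  one_mem' := by
    change value A B 1 ≠ 0
    rw [map_one]
    exact one_ne_zero
  mul_mem' := fun {f g} hf hg => by
    change value A B (f * g) ≠ 0
    rw [map_mul]
    exact mul_ne_zero hf hg

/-- The localization of the ring `R` at the multiplicative set `S` is reduced. -/
def LocRed {R : Type} [CommRing R] (S : Submonoid R) : Prop := IsReduced (Localization S)

/-- The classes modulo the ideal `I` of the elements of `S`. -/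
def classes {R : Type} [CommRing R] (I : Ideal R) (S : Submonoid R) : Submonoid (R ⧸ I) :=
  Submonoid.map (Ideal.Quotient.mk I) S

/-- The scheme with the ring of functions `Poly n ⧸ I` is reduced at the point `(A, B)`: its local ring at this point,
the localization of `Poly n ⧸ I` at the classes of the polynomials which do not vanish at `(A, B)`, is reduced. -/
def ReducedAt {n : ℕ} (I : Ideal (Poly n)) (A B : Matrix (Fin n) (Fin n) ℂ) : Prop :=
  LocRed (classes I (nonvanishing A B))

/-- The subspace `ℂ[A, B] v` spanned by the vectors `A^i B^j v`. -/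
def orbit {n : ℕ} (A B : Matrix (Fin n) (Fin n) ℂ) (v : Fin n → ℂ) : Submodule ℂ (Fin n → ℂ) :=
  Submodule.span ℂ {w | ∃ i j : ℕ, w = (A ^ i * B ^ j) *ᵥ v}

/-- The joint generalized eigenspace of `A`, `B` for `(α, β)`: the vectors killed by powers of `A - α` and `B - β`. -/
def jointEig {n : ℕ} (A B : Matrix (Fin n) (Fin n) ℂ) (α β : ℂ) : Submodule ℂ (Fin n → ℂ) :=
  Module.End.maxGenEigenspace (Matrix.toLin' A) α ⊓ Module.End.maxGenEigenspace (Matrix.toLin' B) β

/-- For some `a`, `b` and some vectors `v`, `w` the joint generalized eigenspace of `A`, `B` for `(α, β)` is contained in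
`ℂ[A, B] v + ℂ[a A + b B] w`. -/
def TwoOrbitsAt {n : ℕ} (A B : Matrix (Fin n) (Fin n) ℂ) (α β : ℂ) : Prop :=
  ∃ (a b : ℂ) (v w : Fin n → ℂ), jointEig A B α β ≤ orbit A B v ⊔ orbit (a • A + b • B) 1 w

theorem pow_mulVec {n : ℕ} (X : Matrix (Fin n) (Fin n) ℂ) (ξ : ℂ) (w : Fin n → ℂ) (i : ℕ) :
    (X ^ i) *ᵥ w ∈ LinearMap.range (Matrix.toLin' (X - ξ • 1)) ⊔ Submodule.span ℂ {w} := by
  induction i with
  | zero =>
    rw [pow_zero, Matrix.one_mulVec]
    exact Submodule.mem_sup_right (Submodule.mem_span_singleton_self w)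
  | succ i ih =>
    have h1 : (X ^ (i + 1)) *ᵥ w = Matrix.toLin' (X - ξ • 1) ((X ^ i) *ᵥ w) + ξ • (X ^ i) *ᵥ w := by
      rw [Matrix.toLin'_apply, Matrix.sub_mulVec, Matrix.smul_mulVec, Matrix.one_mulVec,
        Matrix.mulVec_mulVec, ← pow_succ', sub_add_cancel]
    rw [h1]
    exact add_mem (Submodule.mem_sup_left ⟨_, rfl⟩) (Submodule.smul_mem _ _ ih)

theorem finrank_le {n : ℕ} (E K : Submodule ℂ (Fin n → ℂ)) (w : Fin n → ℂ)
    (h : E ≤ K ⊔ Submodule.span ℂ {w}) :
    Module.finrank ℂ E ≤ Module.finrank ℂ (E ⊓ K : Submodule ℂ (Fin n → ℂ)) + 1 := by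
  have h1 := Submodule.finrank_sup_add_finrank_inf_eq E K
  have h2 : Module.finrank ℂ (E ⊔ K : Submodule ℂ (Fin n → ℂ)) ≤
      Module.finrank ℂ (K ⊔ Submodule.span ℂ {w} : Submodule ℂ (Fin n → ℂ)) :=
    Submodule.finrank_mono (sup_le h le_sup_left)
  have h3 := Submodule.finrank_add_le_finrank_add_finrank K (Submodule.span ℂ {w})
  have h4 : Module.finrank ℂ (Submodule.span ℂ {w}) ≤ 1 :=
    le_trans (finrank_span_le_card {w}) (by simp)
  omega

theorem cu {n : ℕ} (A B : Matrix (Fin n) (Fin n) ℂ) (α β : ℂ) (h : TwoOrbitsAt A B α β) :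
    Pool.Agent.AOC.Cu A B α β := by
  obtain ⟨a, b, v, w, hv⟩ := h
  refine ⟨a, b, v, ?_⟩
  have h1 : Pool.Agent.ANC.gen A B v = orbit A B v := by
    unfold Pool.Agent.ANC.gen orbit
    congr 1
    ext w
    constructor
    · rintro ⟨p, rfl⟩
      exact ⟨p.1, p.2, rfl⟩
    · rintro ⟨i, j, rfl⟩
      exact ⟨(i, j), rfl⟩
  rw [h1]
  refine finrank_le (jointEig A B α β) _ w (le_trans hv ?_)
  rw [sup_assoc]
  refine sup_le_sup_left ?_ _
  unfold orbit
  rw [Submodule.span_le]
  rintro _ ⟨i, j, rfl⟩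
  rw [one_pow, mul_one]
  exact pow_mulVec _ _ w i

/-- Let `A`, `B` be commuting complex matrices of size `n` such that every joint generalized eigenspace of `A`, `B` is
contained in `ℂ[A, B] v + ℂ[a A + b B] w` for some `a`, `b`, `v`, `w`, or the same holds for the transposed matrices (the
case may depend on the eigenvalues). Then the commuting scheme of `gl_n` is reduced at the point `(A, B)`, and if `A` and
`B` have trace zero, so is the commuting scheme of `sl_n`. -/
theorem result (n : ℕ) (A B : Matrix (Fin n) (Fin n) ℂ) (hAB : A * B = B * A)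
    (h : ∀ α β : ℂ, TwoOrbitsAt A B α β ∨ TwoOrbitsAt Aᵀ Bᵀ α β) :
    ReducedAt (idealGl n) A B ∧ (A.trace = 0 → B.trace = 0 → ReducedAt (idealSl n) A B) := by
  have hR : Pool.Agent.ANC.Rd A B := Pool.Agent.AOC.all_Dec n A B hAB fun α β =>
    (h α β).imp (cu A B α β) (cu Aᵀ Bᵀ α β)
  have : (RingHom.ker (value A B)).IsPrime := RingHom.ker_isPrime _
  have hS : nonvanishing A B = (RingHom.ker (value A B)).primeCompl := by
    ext f
    exact Iff.rfl
  refine ⟨?_, fun _ _ => ?_⟩
  · have h1 := Pool.Agent.CTR.loc_reduced (idealGl n) (RingHom.ker (value A B)) fun f hf => by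
      obtain ⟨g, hg, hgf⟩ := hR f hf
      exact ⟨g, hg, hgf⟩
    rw [← hS] at h1
    exact h1
  · have h1 := Pool.Agent.CTR.loc_reduced (idealSl n) (RingHom.ker (value A B)) fun f hf => by
      obtain ⟨g, hg, hgf⟩ := Pool.Agent.ANC.sl_Rd hR f hf
      exact ⟨g, hg, hgf⟩
    rw [← hS] at h1
    exact h1

end Pool.Agent.Results.MP_c67a3f_ag.TwoOrbits
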